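import Pool.Agent.X171.FT.Tensor

/-!
# MP_11a8c1_an, Q1: Fremlin tensor products of projective Banach lattices with units

For a set `A` let `X_A` be the space `C([0,1]^A)` with the lattice norm whose unit ball is
generated by `1 / 3` and the coordinates `x_a`, i.e. `‖f‖` is the infimum of the numbers
`3 c + ∑ c_a` with `|f| ≤ c + ∑ c_a x_a`. It is equivalent to the supremum norm, `1` is an order
unit and `X_A` is projective: lift `T 1` to `e` and `T x_a` to `u_a ≥ 0` and take
`1 ↦ e`, `x_a ↦ u_a ⊓ e`. The Fremlin tensor product of `X_A` and `X_B` is `C([0,1]^(A ⊕ B))` with the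
norm generated by `1 / 9`, `x_a / 3`, `y_b / 3` and `x_a y_b`.

Let `Z` be the space of the continuous functions of the coordinates `z_{a b}`, `x_a`, `y_b` with
the norm generated by `1 / 9`, `x_a / 3`, `y_b / 3`, `z_{a b}` and let `J` be the ideal of the
functions vanishing where `z_{a b} = x_a y_b` for all `a, b`. Then `f ↦ f(x, y) + J` is a contractive
lattice homomorphism `X_A ⊗ X_B → Z / J`. Let `S` be a lift of norm at most `3 / 2`. The functions
`S 1`, `S x_a`, `S y_b` depend on countably many coordinates. If `A` is uncountable and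
`|A × ℕ| < |B|` there are `a, b` such that none of `S 1`, `S x_a`, `S y_b` depends on `z_{a b}`. At the
point with `x_a = y_b = 1` and all other coordinates `0` we get `S (x_a y_b) = 1`, but
`‖S (x_a y_b)‖ < 2` implies that `S (x_a y_b) < 2 / 3` at this point.
-/

open Filter
open scoped Topology

namespace Pool.Agent.Results.MP_11a8c1_an.FremlinTensorNotProjective

open Pool.Agent.X171.BL (BanachLattice IsLatticeHom K pr pull mulBy)
open Pool.Agent.X171.SP Pool.Agent.X171.FT

universe u v w

/-- `e` is a topological order unit: `e ≥ 0` and the closed ideal generated by `e` is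
everything. -/
def IsTopologicalOrderUnit {P : Type u} [NormedAddCommGroup P] [Lattice P] [NormedSpace ℝ P]
    (e : P) : Prop :=
  0 ≤ e ∧ ∀ J : ClosedIdeal P, e ∈ J → ∀ x, x ∈ J

variable {A B : Type}

/-- the map `x ↦ x ⊗ y` -/
noncomputable def tL (y : C(K B, ℝ)) : C(K A, ℝ) →L[ℝ] C(K (A ⊕ B), ℝ) :=
  (mulBy (pull sndK sndK_continuous y)).comp (pull fstK fstK_continuous)

/-- the map `y ↦ x ⊗ y` -/
noncomputable def tR (x : C(K A, ℝ)) : C(K B, ℝ) →L[ℝ] C(K (A ⊕ B), ℝ) :=
  (mulBy (pull fstK fstK_continuous x)).comp (pull sndK sndK_continuous)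

lemma tL_apply (x : C(K A, ℝ)) (y : C(K B, ℝ)) : tL y x = tens x y := mul_comm _ _

lemma tR_apply (x : C(K A, ℝ)) (y : C(K B, ℝ)) : tR x y = tens x y := rfl

lemma rho_gen_tens (i : Option A) (y : C(K B, ℝ)) :
    (famE A B).rho (tens (genA i) y) ≤ wA i * (famA B).rho y := by
  refine bound_of_pos (famA B)
    (S := (toRF (famE A B) : C(K (A ⊕ B), ℝ) →L[ℝ] RF (famE A B)).comp (tR (genA i)))
    (fun g hg => ?_) (zero_le_one.trans (wA_ge i)) (fun j => ?_) y
  · have h1 : 0 ≤ tens (genA i) g := tens_nonneg (fun k => genA_nonneg i k) hg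
    exact h1
  · exact (famE A B).rho_p (i, j)

lemma rho_tens (x : C(K A, ℝ)) (y : C(K B, ℝ)) :
    (famE A B).rho (tens x y) ≤ (famA A).rho x * (famA B).rho y := by
  have h1 : (famE A B).rho (tens x |y|) ≤ (famA B).rho y * (famA A).rho x := by
    rw [← tL_apply]
    refine bound_of_pos (famA A)
      (S := (toRF (famE A B) : C(K (A ⊕ B), ℝ) →L[ℝ] RF (famE A B)).comp (tL |y|))
      (fun g hg => ?_) ((famA B).rho_nonneg y) (fun i => ?_) x
    · have h1 : 0 ≤ tL |y| g := by
        rw [tL_apply]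
        exact tens_nonneg hg (abs_nonneg y)
      exact h1
    · change (famE A B).rho (tL |y| (genA i)) ≤ _
      rw [tL_apply]
      refine (rho_gen_tens i |y|).trans ?_
      rw [mul_comm]
      refine mul_le_mul_of_nonneg_right ?_ (zero_le_one.trans (wA_ge i))
      exact (famA B).rho_mono (by rw [abs_abs])
  refine ((famE A B).rho_mono ?_).trans (h1.trans_eq (mul_comm _ _))
  rw [tens_abs, tens_abs, abs_abs]

/-- the bilinear map `(x, y) ↦ x ⊗ y` -/
noncomputable def bil (A B : Type) :
    RF (famA A) →L[ℝ] RF (famA B) →L[ℝ] RF (famE A B) :=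
  LinearMap.mkContinuous₂
    (LinearMap.mk₂ ℝ (fun (x : RF (famA A)) (y : RF (famA B)) =>
      (toRF (famE A B) (tens ((toRF (famA A)).symm x) ((toRF (famA B)).symm y)) :
        RF (famE A B)))
      (fun x x' y => by rw [map_add, tens_add_left, map_add])
      (fun r x y => by rw [map_smul, tens_smul_left, map_smul])
      (fun x y y' => by rw [map_add, tens_add_right, map_add])
      (fun r x y => by rw [map_smul, tens_smul_right, map_smul])) 1
    (fun x y => by
      rw [one_mul]
      exact rho_tens ((toRF (famA A)).symm x) ((toRF (famA B)).symm y))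

lemma bil_apply (x : RF (famA A)) (y : RF (famA B)) :
    bil A B x y = toRF (famE A B) (tens ((toRF (famA A)).symm x) ((toRF (famA B)).symm y)) :=
  rfl

lemma norm_bil_apply (x : RF (famA A)) (y : RF (famA B)) : ‖bil A B x y‖ ≤ ‖x‖ * ‖y‖ :=
  rho_tens ((toRF (famA A)).symm x) ((toRF (famA B)).symm y)

/-- `C([0,1]^(A ⊕ B))` with the norm of `famE A B` is the Fremlin tensor product. -/
theorem isFremlinTensor (A B : Type) : IsFremlinTensor.{v} (bil A B) := by
  refine ⟨fun x y hx hy => ?_, fun Z _ _ _ _ φ hφ => ?_⟩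
  · have h1 : 0 ≤ tens ((toRF (famA A)).symm x) ((toRF (famA B)).symm y) := tens_nonneg hx hy
    exact h1
  · set β : C(K A, ℝ) →ₗ[ℝ] C(K B, ℝ) →ₗ[ℝ] Z := LinearMap.mk₂ ℝ
      (fun x y => φ (toRF (famA A) x) (toRF (famA B) y))
      (fun x x' y => by rw [map_add, map_add]; rfl)
      (fun r x y => by rw [map_smul, map_smul]; rfl)
      (fun x y y' => by rw [map_add, map_add])
      (fun r x y => by rw [map_smul, map_smul]) with hβdef
    have hβ : ∀ x y, 0 ≤ x → 0 ≤ y → 0 ≤ β x y := fun x y hx hy =>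
      hφ (toRF (famA A) x) (toRF (famA B) y) hx hy
    obtain ⟨T₀, hT1, hT2⟩ := exists_ext β hβ
    have hT3 : ∀ x y, T₀ (tens ((toRF (famA A)).symm x) ((toRF (famA B)).symm y)) = φ x y :=
      fun x y => hT2 _ _
    set T : RF (famE A B) →L[ℝ] Z :=
      T₀.comp ((toRF (famE A B)).symm : RF (famE A B) →L[ℝ] C(K (A ⊕ B), ℝ)) with hTdef
    have hT4 : ∀ x y, T (bil A B x y) = φ x y := fun x y => hT3 x y
    refine ⟨T, fun u hu => hT1 _ hu, hT4, le_antisymm ?_ ?_, fun T' _ hT' => ?_⟩
    · refine ContinuousLinearMap.opNorm_le_bound _ (norm_nonneg φ) fun f => ?_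
      refine bound_of_pos (famE A B) hT1 (norm_nonneg φ) (fun i => ?_) f
      change ‖T₀ (tens (genA i.1) (genA i.2))‖ ≤ ‖φ‖ * (wA i.1 * wA i.2)
      rw [hT2]
      change ‖φ (toRF (famA A) (genA i.1)) (toRF (famA B) (genA i.2))‖ ≤ _
      refine (φ.le_opNorm₂ _ _).trans ?_
      rw [mul_assoc]
      refine mul_le_mul_of_nonneg_left ?_ (norm_nonneg φ)
      exact mul_le_mul ((famA A).rho_p i.1) ((famA B).rho_p i.2) (norm_nonneg _)
        (zero_le_one.trans (wA_ge i.1))
    · refine ContinuousLinearMap.opNorm_le_bound₂ _ (norm_nonneg T) fun x y => ?_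
      rw [← hT4, mul_assoc]
      refine (T.le_opNorm _).trans ?_
      exact mul_le_mul_of_nonneg_left (norm_bil_apply x y) (norm_nonneg T)
    · set T₁ : C(K (A ⊕ B), ℝ) →L[ℝ] Z :=
        T'.comp (toRF (famE A B) : C(K (A ⊕ B), ℝ) →L[ℝ] RF (famE A B)) with hT₁
      have h1 : ∀ f ∈ V A B, T₁ f = T₀ f := by
        intro f hf
        refine Submodule.span_induction (p := fun f _ => T₁ f = T₀ f) ?_ ?_ ?_ ?_ hf
        · rintro _ ⟨p, rfl⟩
          change T₁ (tens p.1 p.2) = T₀ (tens p.1 p.2)
          rw [hT2]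
          exact hT' (toRF (famA A) p.1) (toRF (famA B) p.2)
        · rw [map_zero, map_zero]
        · intro a b _ _ ha hb
          rw [map_add, map_add, ha, hb]
        · intro r a _ ha
          rw [map_smul, map_smul, ha]
      have h2 : ∀ f, T₁ f = T₀ f := fun f => by
        have hcl : IsClosed {f | T₁ f = T₀ f} := isClosed_eq T₁.continuous T₀.continuous
        exact closure_minimal h1 hcl (V_dense f)
      ext f
      exact h2 ((toRF (famE A B)).symm f)

lemma unit_XA (A : Type) : IsTopologicalOrderUnit (toRF (famA A) 1) := by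
  refine ⟨?_, fun J hJ f => mem_of_one_mem (famA A) J hJ f⟩
  have hone : (0 : C(K A, ℝ)) ≤ 1 := fun _ => zero_le_one
  exact hone

lemma card_aux (φ : ℝ × ℕ → Set ℝ) : ¬ Function.Surjective φ := by
  intro h
  have h1 := Cardinal.mk_le_of_surjective h
  rw [Cardinal.mk_set, Cardinal.mk_prod, Cardinal.lift_id, Cardinal.lift_id, Cardinal.mk_nat,
    Cardinal.mul_aleph0_eq (Cardinal.aleph0_le_mk ℝ)] at h1
  exact absurd h1 (not_le.2 (Cardinal.cantor _))

/-- **Theorem.** There are projective Banach lattices `X` and `Y`, each with a topological order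
unit, whose Fremlin tensor product `E` is not projective. -/
theorem result : ∃ (X Y E : Type)
    (_ : NormedAddCommGroup X) (_ : Lattice X) (_ : NormedSpace ℝ X)
    (_ : NormedAddCommGroup Y) (_ : Lattice Y) (_ : NormedSpace ℝ Y)
    (_ : NormedAddCommGroup E) (_ : Lattice E) (_ : NormedSpace ℝ E)
    (b : X →L[ℝ] Y →L[ℝ] E),
    BanachLattice X ∧ BanachLattice Y ∧ BanachLattice E ∧
    OnePlusProjective.{0, v} X ∧ OnePlusProjective.{0, v} Y ∧
    (∃ e : X, IsTopologicalOrderUnit e) ∧ (∃ e : Y, IsTopologicalOrderUnit e) ∧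
    IsFremlinTensor.{v} b ∧ ¬ OnePlusProjective.{0, 0} E :=
  ⟨RF (famA ℝ), RF (famA (Set ℝ)), RF (famE ℝ (Set ℝ)), inferInstance, inferInstance,
    inferInstance, inferInstance, inferInstance, inferInstance, inferInstance, inferInstance,
    inferInstance, bil ℝ (Set ℝ), inferInstance, inferInstance, inferInstance, projA ℝ,
    projA (Set ℝ), ⟨_, unit_XA ℝ⟩, ⟨_, unit_XA (Set ℝ)⟩, isFremlinTensor ℝ (Set ℝ),
    not_projE card_aux⟩

end Pool.Agent.Results.MP_11a8c1_an.FremlinTensorNotProjective
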